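import Pool.Agent.SGD.Defs

/-!
# Squad SGD: the statements of the modules, with complete proofs

Tools on main (all proved): `Pool.Agent.SGP.H56` (`Pool/Agent/Helper56_SGP/CTR.lean`: `con_left`,
`con_right`, `con_split`, `uniq_split`, `con_pred`, `con_succ`, `chain_con`, `contour_nb` every contour
vertex has a neighbour, `two` a near-triangulation with contour `[a, b]` has only the vertices `a`,
`b`, `ctr : CtrStmt`), `Pool.Agent.SGP.H17.rmv : RmvStmt` (`Helper17_SGP/RMV.lean`),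
`Pool.Agent.SGP.H81.con : ConStmt` (`Helper81_SGP/Cone.lean`), `Pool.Agent.SGP.H77.rot : RotStmt`,
`Pool.Agent.SGE.H36` (`Nt0Stmt`), `Pool.Agent.SGE.H20.chd : ChdStmt`,
`Pool.Agent.SGY.H56.cap : CapStmt`, `Pool.Agent.SGY.H56.spl Pool.Agent.SGY.H7.chl
Pool.Agent.SGY.H56.cap : SplStmt`, `Pool.Agent.SGY.H17.map : MapStmt`,
`Pool.Agent.SGY.H22.glu : GluStmt`, `Pool.Agent.SGY.H95.fpl : FplStmt`,
`Pool.Agent.SGY.H73.mayA : MayStmt`, `Pool.Agent.SGY.H73.thyA : ThyStmt` (`Helper73_SGY/Asm.lean`),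
`Pool.Agent.SGP.H20.gex : GexStmt`, `DrwStmt` (see the imports of `Helper73_SGY/Asm.lean`).
-/

noncomputable section

namespace Pool.Agent.SGD

open Pool.Agent.SGE Pool.Agent.SGP Pool.Agent.SGY

/-! ## The sweep -/

/-- BND: an edge without a face on its left is on the boundary.
PROOF.  If `x ∉ C`: `NT.int` for `x`, `y`: the list of `Cyc E F x y` starts with `y` and `F x y _` holds
for the second element (`l` or, if `l = []`, `y` itself): contradiction.  If `x ∈ C`: `NT.bd` gives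
`Fan E F x' x y'`, where `x'`, `y'` are the elements before and after `x` in `b :: (C ++ [a])`;
`y` is in the list of the fan; if it is not the last element then the chain gives a face `F x y _`; so
`y = y'`, and `Con C x y'` if `x ≠ b`, `y' = a` if `x = b` (the last element of `C`, no repetition). -/
def BndStmt : Prop := ∀ {V : Type} [Fintype V] {a b : V} {C : List V} {E : V → V → Prop}
  {F : V → V → V → Prop}, NT a b C E F → ∀ x y, E x y → (∀ z, ¬ F x y z) →
  Con C x y ∨ (x = b ∧ y = a)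

/-- BN2: the boundary edges have no face on the outer side, and the other edges have one.
PROOF.  `Con C x y`: `C = P ++ x :: y :: Q`, so `x'`, `x`, `y` are consecutive in `b :: (C ++ [a])` for
some `x'`, `Fan E F x' x y` gives both claims (`y` is the last element of the list).  `x = b`, `y = a`:
the last triple of `b :: (C ++ [a])`. -/
def Bn2Stmt : Prop := ∀ {V : Type} [Fintype V] {a b : V} {C : List V} {E : V → V → Prop}
  {F : V → V → V → Prop}, NT a b C E F →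
  (∀ x y, Con C x y → E x y ∧ ∀ z, ¬ F x y z) ∧ E b a ∧ ∀ z, ¬ F b a z

/-- CLO: an interior vertex of the outer part has no neighbours in `K ∪ {c}`.
PROOF.  `z ≠ a, b` (`a`, `b` are in `C₁`: `NT.hd`, `NT.ls`) and `z ≠ c` (`offE` has no edge at `c`).  Let
`offE E (K ∪ {c}) z v`.  `h.n1.int` gives a list `l` with `(v :: (l ++ [v])).IsChain (offF F _ z)`,
`(v :: l).Nodup`; `h.nt.int` gives `l'` with `(v :: (l' ++ [v])).IsChain (F z)`, `(v :: l').Nodup` and
`E z x ↔ x ∈ v :: l'`.  Both lists are chains of `F z` which start at `v` and come back to `v`, and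
`F z x` has at most one successor (`NT.fn`); so `l = l'` (induction: compare element by element; if
one list ends earlier then the other one contains `v` twice).  So every neighbour of `z` is in `v :: l`,
hence not in `K ∪ {c}`. -/
def CloStmt : Prop := ∀ {V : Type} [Fintype V] {a b c : V} {E : V → V → Prop}
  {F : V → V → V → Prop} {K : Set V} {C₁ C₂ : List V}, Stt a b c E F K C₁ C₂ → ∀ z, z ∉ C₁ →
  Rel (offE E (K ∪ {c})) z → ∀ w, E z w → w ∉ K ∪ {c}

/-- SUB: a chain of consecutive pairs is a contiguous part.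
PROOF.  Induction on `L`.  `C = P₁ ++ x :: y :: Q₁` by `Con C x y`.  `L = []`: done.  `L = z :: L'`: the
induction hypothesis for `y :: z :: L'` gives `C = P ++ (y :: z :: L') ++ Q`; the position of `y` is
unique (`H56.uniq_split`), so `P = P₁ ++ [x]`. -/
def SubStmt : Prop := ∀ {V : Type} {C : List V}, C.Nodup → ∀ (x y : V) (L : List V),
  (x :: y :: L).IsChain (Con C) → ∃ P Q, C = P ++ (x :: y :: L) ++ Q

/-- ARC: the neighbours of a contour vertex `v` on the side of the cluster, from `q` to `p`.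
PROOF.  `v ≠ a, b` (there are elements before and after `v`, no repetition), `v ≠ c` and `v ∉ K`
(`contour_nb`: `v` has an `offE`-edge).  `h.nt.int v q`: a list `l` with
`(q :: (l ++ [q])).IsChain (F v)`, `(q :: l).Nodup`, `E v x ↔ x ∈ q :: l`.  `h.n1.bd`: `Fan` at `v` from
`p` to `q`: a list `l'` with head `p`, last element `q`, `l'.IsChain (offF F _ v)`, no repetition,
`offE E _ v x ↔ x ∈ l'`, no face `offF F _ v q _`.  `p ∈ q :: l` and `p ≠ q`, so `l = Y ++ p :: R`.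
Claim: `l' = p :: (R ++ [q])`: both are chains of `F v` which start with `p` and end with `q`, `q` is in
each of them only as the last element; compare element by element with `NT.fn`.  So the elements of
`l'` are `q` and the elements of `p :: R`, and `Y` are the other neighbours of `v`, which are the
neighbours in `K ∪ {c}` (`x ∉ K ∪ {c}` and `E v x` means `offE E _ v x`).  `Y ≠ []`: otherwise
`F v q p` is a face outside `K ∪ {c}`, but the fan ends with `q`.  The chain `q :: (Y ++ [p])` is the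
first part of `q :: (l ++ [q])`. -/
def ArcStmt : Prop := ∀ {V : Type} [Fintype V] {a b c : V} {E : V → V → Prop}
  {F : V → V → V → Prop} {K : Set V} {C₁ C₂ : List V}, Stt a b c E F K C₁ C₂ →
  ∀ (P : List V) (p v q : V) (Q : List V), C₁ = P ++ p :: v :: q :: Q →
  ∃ Y : List V, Y ≠ [] ∧ (q :: (Y ++ [p])).IsChain (F v) ∧ Y.Nodup ∧
    ∀ y, y ∈ Y ↔ E v y ∧ y ∈ K ∪ {c}

/-- EXG: a vertex which can be moved into the cluster.
PROOF.  (1) `C₁ ≠ [a, b]`: otherwise (`H56.two`) only `a`, `b` have `offE`-edges; but an element `x` of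
`Inn a b c E \ K` has one by `h.r1`.
(2) Suppose that there is a chord whose left end is not `a`: `C₁ = P ++ u :: (M ++ w :: Q)`,
`P ≠ []`, `M ≠ []`, `E u w`; choose one with `M.length` minimal.  Let `m ∈ M` and `E m x`, `x ∈ C₁`: then
`x ∈ u :: (M ++ [w])` (`ChdStmt` for `h.n1`; the ends are not in `K ∪ {c}` by `contour_nb`, so
`offE` and `E` agree), and by minimality `x` is the element before or after `m` in `C₁` (otherwise
`m x` is a chord with a shorter middle part and its left end is not `a`, because `a` is the head of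
`P`).  Suppose now that no `m ∈ M` has two different neighbours in `K ∪ {c}`.  By `ArcStmt` the list `Y`
of `m ∈ M` has exactly one element `y m`, so `F m q (y m)` and `F m (y m) p` with the elements `p`, `q`
before and after `m`; with `NT.rot`: `F p m (y m)`.  For two consecutive elements `x, x'` of
`u :: (M ++ [w])` the face `F x x' _` is unique (`fn`), so all the `y m` are equal to one `y`, and
`F x x' y` for all consecutive `x, x'` of `u :: (M ++ [w])`; in particular `E y u` and `E w y`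
(`fe`, `rot`).  `y ∈ K ∪ {c}`.  `SplStmt` for `h.n1` and the chord: `U`, which contains `M`, no other
element of `C₁`, all its elements have `offE`-edges, and the `offE`-neighbours of `U` are in
`U ∪ {u, w}`.  If `s ∈ U`, `E s t` and `t ∈ K ∪ {c}`, then `s ∈ C₁` (`CloStmt`), so `s ∈ M`, so `t = y`.
So `NoSep` applies to `U` and the triangle `u w y` (`y ∉ U` because `y ∈ K ∪ {c}` has no `offE`-edge;
`a ∉ U` because `a ∈ P`): `a` is `u`, `w` or `y`; the first two are impossible because `C₁` has no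
repetition and `a` is the head of `P`, the third because `a ∉ K ∪ {c}`.  Contradiction.  So some
`m ∈ M` has two neighbours in `K ∪ {c}` and no chords.
(3) If there is no such chord: by (1) `C₁ = a :: v :: q :: Q` (the head is `a`, the last element is `b`,
at least three elements); `p = a`; `E v x` with `x ∈ Q` would be a chord with left end `v`. -/
def ExgStmt : Prop := ∀ {V : Type} [Fintype V] {a b c : V} {E : V → V → Prop}
  {F : V → V → V → Prop} {K : Set V} {C₁ C₂ : List V}, Stt a b c E F K C₁ C₂ → NoSep a E →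
  (Inn a b c E \ K).Nonempty →
  ∃ (P : List V) (p v q : V) (Q : List V), C₁ = P ++ p :: v :: q :: Q ∧
    (∀ x ∈ C₁, E v x → x = p ∨ x = q) ∧
    (p = a ∨ ∃ y y', y ≠ y' ∧ y ∈ K ∪ {c} ∧ y' ∈ K ∪ {c} ∧ E v y ∧ E v y')

/-- STP: the vertex `v` is moved into the cluster.
PROOF.  `n1`: `RmvStmt` for `h.n1` and `v` (no chords): `mid` and a near-triangulation with the
contour `P ++ p :: (mid ++ q :: Q)` and the relations `rE (offE E (K ∪ {c})) v =
offE E (insert v K ∪ {c})`, the same for `F` (`funext`, `propext`, `tauto`).  `r1`: `x ≠ v` outside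
`K ∪ {c}` has an `offE`-edge to some `y`; if `y = v` then `x ∈ p :: (mid ++ [q])` (third clause of
`RmvStmt`), which is on the new contour, and contour vertices have neighbours (`contour_nb`).
`n2`: let `Y` be the list of `ArcStmt` and `Y' = Y ++ [a]` if `p = a`, `Y' = Y` if `p ≠ a`.  `Y'` has at
least two elements (`Y ≠ []`; if `p ≠ a` then `y`, `y'` are in `Y`).  For consecutive `x, x'` of `Y'` we
have `F v x x'` (chain), so `F x x' v`; `x, x' ∈ K ∪ {a, c}`, `E x x'`; there is no face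
`onF F (K ∪ {a, c}) x x' z` (`fn`: `z = v`, but `v ∉ K ∪ {a, c}`); `BndStmt` for `h.n2`: `Con C₂ x x'`
(`x = a` is impossible because `a` is only the last element of `Y'`: `a ∉ K ∪ {c}`).  `SubStmt`:
`C₂ = P' ++ Y' ++ Q'`; `Y' = p' :: (mid' ++ [q'])`.  `CapStmt` for `h.n2` and `v` (`v` has no
`onE`-edge): the contour `P' ++ p' :: v :: q' :: Q'` and the relations `cE (onE E (K ∪ {a, c})) v Y'`,
`cF (onF F (K ∪ {a, c})) v Y'`.  They are `onE E (insert v K ∪ {a, c})`, `onF F (insert v K ∪ {a, c})`: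
edges: `E v y` with `y ∈ K ∪ {c}` means `y ∈ Y`; `E v a`: `a ∈ C₁`, so `a = p` or `a = q` (no chords),
`a = q` is impossible (`a` is the head), so `p = a` and `a ∈ Y'`; conversely all elements of `Y'` are
neighbours of `v` (`p` too).  Faces: `F x y v` with `x, y ∈ K ∪ {a, c}` if and only if `Con Y' x y`:
from right to left see above; from left to right: `F v x y`, `x` and `y` are neighbours of `v`, so
`x ∈ Y'`; if `x ∈ Y` then `y` is the next element of `q :: (Y ++ [p])` (`fn`), if this is `p` then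
`p ∈ K ∪ {a, c}`, so `p = a` (contour vertices are not in `K ∪ {c}`), `Con Y' x a`; if `x = a = p`:
the fan of `h.n1` at `v` starts with `p`, so `F v p t` with `t ∉ K ∪ {c}` (the list of the fan has at
least two elements because `p ≠ q`), `y = t` by `fn`, but `y ∈ K ∪ {a, c}`, `y ≠ a`: contradiction.
Rotations: `NT.rot`.  `r2`: `v` is joined to the elements of `Y'`.  `sub`: `v ≠ a, b, c`, `Rel E v`. -/
def StpStmt : Prop := ∀ {V : Type} [Fintype V] {a b c : V} {E : V → V → Prop}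
  {F : V → V → V → Prop} {K : Set V} {C₁ C₂ : List V}, Stt a b c E F K C₁ C₂ →
  ∀ (P : List V) (p v q : V) (Q : List V), C₁ = P ++ p :: v :: q :: Q →
  (∀ x ∈ C₁, E v x → x = p ∨ x = q) →
  (p = a ∨ ∃ y y', y ≠ y' ∧ y ∈ K ∪ {c} ∧ y' ∈ K ∪ {c} ∧ E v y ∧ E v y') →
  v ∉ K ∧ ∃ C₁' C₂', Stt a b c E F (insert v K) C₁' C₂'

/-- INI: the first state.
PROOF.  `n1`: `RmvStmt` with `P = Q = []`, `p = a`, `v = c`, `q = b` (chord condition by `irr`);
`offE E (∅ ∪ {c}) = rE E c`.  `n2`: `Nt0Stmt` for `c ≠ a` (`nd`): the only edge of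
`onE E (∅ ∪ {a, c})` is `a c` (`E c a` by `Bn2Stmt` or `bd`), and `onF F (∅ ∪ {a, c})` is empty (a face
has three different vertices: `fe`, `rot`, `irr`).  `r1`: if `E x y` with `y ≠ c` clear; if `y = c` then
`x` is on the new contour, `contour_nb`. -/
def IniStmt : Prop := ∀ {V : Type} [Fintype V] {a b c : V} {E : V → V → Prop}
  {F : V → V → V → Prop}, NT a b [a, c, b] E F → ∃ C₁, Stt a b c E F ∅ C₁ [c, a]

/-- CTF: a state gives a cut.
PROOF.  `ConStmt` for `h.n1` and `c` (isolated, not on `C₁`): `nt1`, with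
`E₁ = cE (offE E (K ∪ {c})) c C₁`, `F₁ = cF (offF F (K ∪ {c})) c C₁`.  `ConStmt` for `h.n2` and `b`
(corners `c, a, b`; `b ∉ K ∪ {a, c}` is isolated in `onE`, not on `C₂`):
`NT c a [c, b, a] E₂ F₂`, `E₂ = cE (onE E (K ∪ {a, c})) b C₂`, the same for `F₂`; `RotStmt` gives
`NT a b [a, c, b] E₂ F₂`.  `inn1`: for `x ≠ a, b, c`: `Rel E₁ x` iff `x` has an `offE`-edge (contour
vertices have one) iff `Rel E x` and `x ∉ K ∪ {c}` (`h.r1`).  `inn2`: `Rel E₂ x` iff `x` has an
`onE`-edge iff `x ∈ K` (`h.r2`, `x ≠ a, c`).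
`r1`: `F x y z`, at most one of them in `K ∪ {c}`.  None: a face of `offF`.  One: rotate (`NT.rot` of
both) so that it is `z`; `th1 z = c`; `x y` is an `offE`-edge without an `offF`-face on its left
(`fn`: it would be `z`), so `Con C₁ x y` or `x = b ∧ y = a` (`BndStmt` for `h.n1`); the second case is
impossible by `Bn2Stmt` for `h.nt`; so `F₁ x y c`.
`r2`: `F x y z`, two of them in `K ∪ {c}`.  If the third is in `K ∪ {a, c}`: a face of `onF`, `th2` fixes
the vertices.  Otherwise rotate so that it is `z`: `x, y ∈ K ∪ {c}`, `th2 z = b`; `x y` is an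
`onE`-edge without an `onF`-face on its left, so `Con C₂ x y` (`BndStmt` for `h.n2`; `x ≠ a`), and
`F₂ x y b`. -/
def CtfStmt : Prop := ∀ {V : Type} [Fintype V] {a b c : V} {E : V → V → Prop}
  {F : V → V → V → Prop} {K : Set V} {C₁ C₂ : List V}, Stt a b c E F K C₁ C₂ → K.Nonempty →
  (Inn a b c E \ K).Nonempty →
  ∃ (E₁ : V → V → Prop) (F₁ : V → V → V → Prop) (E₂ : V → V → Prop) (F₂ : V → V → V → Prop),
    Cut a b c E F K E₁ F₁ E₂ F₂

/-- SIZ: cuts of all sizes.
PROOF.  Claim: for every `m ≤ (Inn a b c E).ncard` there are `K, C₁, C₂` with `Stt` and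
`K.ncard = m`: induction on `m`, `IniStmt`, then `ExgStmt` (`Inn \ K` is not empty because
`K.ncard < (Inn a b c E).ncard`, everything is finite) and `StpStmt` (`ncard_insert_of_notMem`).
`m = q`, `CtfStmt` (`K` is not empty because `0 < q`, `Inn \ K` because `q < ncard`). -/
def SizStmt : Prop := ∀ {V : Type} [Fintype V] {a b c : V} {E : V → V → Prop}
  {F : V → V → V → Prop}, NT a b [a, c, b] E F → NoSep a E → ∀ q, 0 < q →
  q < (Inn a b c E).ncard →
  ∃ (K : Set V) (E₁ : V → V → Prop) (F₁ : V → V → V → Prop) (E₂ : V → V → Prop)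
    (F₂ : V → V → V → Prop), Cut a b c E F K E₁ F₁ E₂ F₂ ∧ K.ncard = q

/-! ## Geometry -/

/-- CSG: the glued placement is good for the triangulation.
PROOF.  This is the first half (`GdT`) of `CstStmt` (`Pool/Agent/Helper47_SGY/CST.lean`), which does
not use `GdY`: copy it. -/
def CsgStmt : Prop := ∀ {V : Type} [Fintype V] {a b c : V}
  {E E₁ E₂ : V → V → Prop} {F F₁ F₂ : V → V → V → Prop} {K : Set V} {f₁ f₂ g : V → ℝ × ℝ},
  NT a b [a, c, b] E F → Cut a b c E F K E₁ F₁ E₂ F₂ →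
  GdT a b c E₁ F₁ f₁ → GdT a b c E₂ F₂ f₂ →
  (∀ x y z, Rel E x → Rel E y → Rel E z →
    (¬ Two (K ∪ {c}) x y z → 0 < o (f₁ (th1 c K x)) (f₁ (th1 c K y)) (f₁ (th1 c K z)) →
      0 < o (g x) (g y) (g z)) ∧
    (Two (K ∪ {c}) x y z →
      0 < o (f₂ (th2 a b c K x)) (f₂ (th2 a b c K y)) (f₂ (th2 a b c K z)) →
      0 < o (g x) (g y) (g z))) →
  GdT a b c E F g

/-- SGN: the second graph in the glued placement.
PROOF.  `X i = g (ps a b k₁ π₁ i)`: position `0` is `b`, position `k₁ + 1` is `a`, the positions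
`1, ..., k₁` are in `Inn a b c E₁ = Inn a b c E \ K`; `Y j = g (ps c a k₂ π₂ j)`: position `0` is `a`,
position `k₂ + 1` is `c`, the positions `1, ..., k₂` are in `Inn a b c E₂ = K`.  All of them have
`Rel E` (corners: `contour_nb` for the contour `[a, c, b]`).  `X i ∉ K ∪ {c}` for all `i`,
`Y j ∈ K ∪ {c}` for `1 ≤ j`.  `top`: both are `g a`.
`g1`: the triple `Y l, X j, X i` has one element in `K ∪ {c}`: rule 1; `th1` sends `Y l` to `c` and
fixes the others; `0 < o (f₁ c) (f₁ (X j)) (f₁ (X i))` is `rad` of the first `GdY`.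
`g2`, `1 ≤ i`: the triple `X l, Y j, Y i` has two elements in `K ∪ {c}`: rule 2; `th2` sends `X l`
(`l ≤ k₁`, so it is not `a`, and it is not `c`, not in `K`) to `b`; `rad` of the second `GdY`.
`g2`, `i = 0`: the triple `X l, Y j, a` has one element in `K ∪ {c}`: rule 1;
`o (f₁ (X l)) (f₁ c) (f₁ a) = o (f₁ c) (f₁ a) (f₁ (X l)) > 0` is `rad` of the first `GdY` for
`l < k₁ + 1`.  `g3`: no element in `K ∪ {c}`: rule 1 and `low`.  `g4`: at least two elements in
`K ∪ {c}`, the third one is in `K ∪ {c}` or is `a`: rule 2, `th2` fixes all of them, `low`. -/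
def SgnStmt : Prop := ∀ {V : Type} [Fintype V] {a b c : V}
  {E E₁ E₂ : V → V → Prop} {F F₁ F₂ : V → V → V → Prop} {K : Set V} {k₁ k₂ : ℕ}
  {D₁ D₂ : ℕ → ℕ} {f₁ f₂ g : V → ℝ × ℝ} {π₁ π₂ : ℕ → V},
  NT a b [a, c, b] E F → Cut a b c E F K E₁ F₁ E₂ F₂ →
  GdY c a b (Inn a b c E₁) k₁ D₁ f₁ π₁ → GdY b c a (Inn a b c E₂) k₂ D₂ f₂ π₂ →
  (∀ x y z, Rel E x → Rel E y → Rel E z →
    (¬ Two (K ∪ {c}) x y z → 0 < o (f₁ (th1 c K x)) (f₁ (th1 c K y)) (f₁ (th1 c K z)) →
      0 < o (g x) (g y) (g z)) ∧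
    (Two (K ∪ {c}) x y z →
      0 < o (f₂ (th2 a b c K x)) (f₂ (th2 a b c K y)) (f₂ (th2 a b c K z)) →
      0 < o (g x) (g y) (g z))) →
  GdX k₁ k₂ D₁ D₂ (fun i => g (ps a b k₁ π₁ i)) (fun j => g (ps c a k₂ π₂ j))

/-- NX2: the edges of the second graph do not cross.
PROOF.  `o p q r = o q r p`, `o p q r = - o p r q`.  If the two edges have a common point (the same
position, or `X (k₁ + 1)` and `Y 0`) then one of the numbers in `Xs` is `0`.  Otherwise:
(1) `xx i j` and `xx i' j'`, four different positions; by symmetry `i < i'`.  `j < i'`: with `A = Y (k₂ + 1)`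
we have `o A (X j) (X i) > 0`, `o A (X j) (X i') < 0`, `o A (X j) (X j') < 0` (`g1`): as in
`NoxStmt` (`Pool/Agent/Helper13_SGY/NOX.lean`), two segments on different sides of a line through an
end point do not cross.  `i' < j < j'`: `Ed k₁ D₁ i j` at `i'` gives `D₁ j < D₁ i'` (`j ≤ k₁`),
`Ed k₁ D₁ i' j'` at `j` gives `D₁ i' < D₁ j` (`1 ≤ i'`), contradiction.  `j' < j`: `g3` for `i < i' < j`
and `i < j' < j`: both ends of the second edge are on the same side of the line `X j, X i`.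
(2) two `yy` edges: the same with `g2` (`l = 0`), `g4`.
(3) `xx i j` and `yy i' j'`: if `1 ≤ i'`: `o (X j) (X i) (Y i') > 0`, `o (X j) (X i) (Y j') > 0` (`g1`).
If `i' = 0`: `j ≤ k₁` (otherwise a common point), `o (Y j') (Y 0) (X i) > 0`,
`o (Y j') (Y 0) (X j) > 0` (`g2`).
(4) `xx i j` and `xy l m`: if `i < l < j`: `o (X j) (X i) (X l) > 0` (`g3`) and
`o (X j) (X i) (Y m) > 0` (`g1`).  If `l < i` or `j < l`: `o (X l) (Y m) (X i)` and
`o (X l) (Y m) (X j)` have the same sign (`g1` with `l := m`).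
(5) `yy i j` and `xy l m`: if `i < m < j`: `o (Y j) (Y i) (Y m) > 0` (`g4`), `o (Y j) (Y i) (X l) > 0`
(`g2`).  Otherwise `o (X l) (Y m) (Y i)`, `o (X l) (Y m) (Y j)` have the same sign (`g2`).
(6) `xy i j`, `xy i' j'`, `i < i'`, so `j' < j` (`j' ≤ j` by hypothesis, `j' ≠ j`):
`o (X i) (Y j) (X i') > 0` (`g1`) and `o (X i) (Y j) (Y j') > 0` (`g2`). -/
def Nx2Stmt : Prop := ∀ (k₁ k₂ : ℕ) (D₁ D₂ : ℕ → ℕ) (S : ℕ → ℕ → Prop) (X Y : ℕ → ℝ × ℝ),
  GdX k₁ k₂ D₁ D₂ X Y → (∀ i j i' j', S i j → S i' j' → i < i' → j' ≤ j) →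
  ∀ p q r s, XE k₁ k₂ D₁ D₂ S p q → XE k₁ k₂ D₁ D₂ S r s →
    ¬ Xs (vt X Y p) (vt X Y q) (vt X Y r) (vt X Y s)

/-! ## The second graph -/

/-- DP2: a set of pairs without crossings is a set of edges for some depths; the positions `0` and
`k + 1` are allowed.
PROOF.  As `DepStmt` (`Pool/Agent/Helper13_SGY/DEP.lean`): `D l` = the number of pairs `(i, j)`,
`i, j ≤ k + 1`, with `i < l < j` and `R i j`. -/
def Dp2Stmt : Prop := ∀ (k : ℕ) (R : ℕ → ℕ → Prop),
  (∀ i j l m, i < j → j < l → l < m → m ≤ k + 1 → ¬ (R i l ∧ R j m)) →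
  ∃ D : ℕ → ℕ, ∀ i j, i < j → j ≤ k + 1 → R i j → Ed k D i j

/-- SRN: the elements of `A` in increasing order.
PROOF.  `(A.toFinset.image r).orderEmbOfFin`, or `Finset.orderIsoOfFin`; `r` is injective. -/
def SrnStmt : Prop := ∀ {n : ℕ} (r : Fin n → ℕ), Function.Injective r → ∀ (A : Set (Fin n))
  (m : ℕ), A.ncard = m → ∀ c : Fin n, ∃ e : ℕ → Fin n, (∀ i, i < m → e i ∈ A) ∧
  (∀ i j, i < j → j < m → r (e i) < r (e j)) ∧ (∀ v ∈ A, ∃ i, i < m ∧ e i = v) ∧
  ∀ i, m ≤ i → e i = c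

/-- TRK: the positions of a two-track graph.
PROOF.  `e₁` = the list of `SrnStmt` for `X` (`e₁ i`, `i ≤ k₁`, increasing, `e₁ (k₁ + 1) = c`).  Let `e` be
the list of `SrnStmt` for `Y = {y | y ∉ X ∧ y ≠ c}`, `e₂ 0 = c`, `e₂ j = e (k₂ + 1 - j)` for
`1 ≤ j ≤ k₂ + 1`: so `r (e₂ j)` is decreasing.  `S i j` := `i ≤ k₁ ∧ 1 ≤ j ∧ j ≤ k₂ + 1 ∧
G.Adj (e₁ i) (e₂ j)`; monotone by `TwoTrack.xy`: `r (e₂ j) ≤ r (e₂ j')` gives `j' ≤ j`.  `D₁`: `Dp2Stmt`
with `R i j := G.Adj (e₁ i) (e₁ j)` (crossings are excluded by `px`); `D₂`: `R i j :=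
G.Adj (e₂ i) (e₂ j)` (crossings are excluded by `py`, in the reversed order, `G.symm`).  Every vertex
is in `X`, in `Y` or is `c`; an edge is `xx` (both ends in `X ∪ {c}`), `yy` (both ends in `Y ∪ {c}`)
or `xy`. -/
def TrkStmt : Prop := ∀ {n : ℕ} (G : SimpleGraph (Fin n)) (c : Fin n) (X : Set (Fin n))
  (r : Fin n → ℕ) (k₁ k₂ : ℕ), TwoTrack G c X r → X.ncard = k₁ + 1 →
  {y | y ∉ X ∧ y ≠ c}.ncard = k₂ + 1 →
  ∃ (e₁ e₂ : ℕ → Fin n) (D₁ D₂ : ℕ → ℕ) (S : ℕ → ℕ → Prop),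
    (∀ i j, i ≤ k₁ + 1 → j ≤ k₁ + 1 → e₁ i = e₁ j → i = j) ∧
    (∀ i j, i ≤ k₂ + 1 → j ≤ k₂ + 1 → e₂ i = e₂ j → i = j) ∧
    e₁ (k₁ + 1) = e₂ 0 ∧
    (∀ i j, i ≤ k₁ → 1 ≤ j → j ≤ k₂ + 1 → e₁ i ≠ e₂ j) ∧
    (∀ v, (∃ i, i ≤ k₁ + 1 ∧ e₁ i = v) ∨ ∃ j, 1 ≤ j ∧ j ≤ k₂ + 1 ∧ e₂ j = v) ∧
    (∀ i j i' j', S i j → S i' j' → i < i' → j' ≤ j) ∧
    ∀ u v, G.Adj u v → ∃ p q, XE k₁ k₂ D₁ D₂ S p q ∧
      ((vt e₁ e₂ p = u ∧ vt e₁ e₂ q = v) ∨ (vt e₁ e₂ p = v ∧ vt e₁ e₂ q = u))

/-! ## The first graph -/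

/-- GNZ: a point on no line through two of the points.
PROOF.  `z = (t, t ^ 2)`: `o (f x) (f y) z` is a polynomial in `t` of degree at most two, not zero
because `f x ≠ f y` (coefficient of `t ^ 2`: `(f y).1 - (f x).1`; if it is `0` then the coefficient of
`t` is `-((f y).2 - (f x).2) ≠ 0`).  So it has finitely many roots; a finite union of finite sets is
not `ℝ`. -/
def GnzStmt : Prop := ∀ {V : Type} [Finite V] (f : V → ℝ × ℝ), Function.Injective f →
  ∃ z : ℝ × ℝ, ∀ x y, x ≠ y → o (f x) (f y) z ≠ 0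

/-- CCR: the corner `c` is replaced by an inner vertex.
PROOF.  `CtrStmt` (proved): `Ctr a b c E F E₀ F₀ P p v q mid Q`.  `MapStmt` with
`σ = Equiv.swap c v` for `NT a b [a, c, b] E₀ F₀` (`σ` fixes `a`, `b`): `NT a b [a, v, b] E' F'` with
`E' x y = E₀ (σ x) (σ y)`.  `c` is isolated in `E'` because `v` is isolated in `E₀`.  Let `E x y`,
`x, y ≠ c`: if both are `≠ v` then `Ctr.sub`; if `x = v` then `y ∈ p :: (mid ++ [q])` (`nv`), so
`E₀ c y` (`nc'`) and `E' v y`; `y = v` by symmetry.  `Rel`: `Ctr.rel`; `Rel E' x` iff `Rel E₀ (σ x)`: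
`x = v`: `Rel E₀ c` (corner).  `v ∈ Inn a b c E`: `va`, `vb`, `vc`, `rel`. -/
def CcrStmt : Prop := ∀ {V : Type} [Fintype V] [DecidableEq V] {a b c : V} {E : V → V → Prop}
  {F : V → V → V → Prop}, NT a b [a, c, b] E F → (Inn a b c E).Nonempty →
  ∃ v ∈ Inn a b c E, ∃ (E' : V → V → Prop) (F' : V → V → V → Prop), NT a b [a, v, b] E' F' ∧
    (∀ x, ¬ E' c x) ∧ (∀ x y, x ≠ c → y ≠ c → E x y → E' x y) ∧
    ∀ x, Rel E' x ↔ x ≠ c ∧ Rel E x

/-- RLZ: a maximal planar graph is a triangulated triangle.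
PROOF.  `GexStmt` (proved) for `T`: `E₀, F₀` on `Fin n ⊕ Fin 3` with corners `inr 0, inr 1, inr 2`, all
vertices have `Rel`.  `CcrStmt` three times, with `RotStmt` in between (`NT a b [a, c, b]` gives
`NT b c [b, a, c]`): first `inr 2` is replaced by `v₁`, then (corners `inr 1, v₁, inr 0`) `inr 0` is
replaced by `v₂`, then (corners `v₁, v₂, inr 1`) `inr 1` is replaced by `v₃`; the set of inner vertices
is not empty because `3 ≤ n` (all `inl v` have `Rel`, at most two of them are corners before the third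
step).  The new corners have `Rel` and are different from the corners before and from the isolated
`inr i`, so they are `inl a, inl b, inl c`.  `E, F` = the result: all `inl v` have `Rel`, all `inr i`
are isolated, and `T.Adj u v` implies `E (inl u) (inl v)`.  `T'` = the graph of `E` on `Fin n`
(`sym`, `irr`), `T ≤ T'`.  `T'` has a drawing: `MayStmt` for any `D` gives `f` with `GdT`, `FplStmt` no
crossings, `f ∘ inl` is injective by `gp` (three vertices; `3 ≤ n`), `GnzStmt`, `DrwStmt`.  So `T' = T`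
by maximality. -/
def RlzStmt : Prop := ∀ {n : ℕ} (T : SimpleGraph (Fin n)), 3 ≤ n → MaxPl T →
  ∃ (a b c : Fin n) (E : Fin n ⊕ Fin 3 → Fin n ⊕ Fin 3 → Prop)
    (F : Fin n ⊕ Fin 3 → Fin n ⊕ Fin 3 → Fin n ⊕ Fin 3 → Prop),
    NT (Sum.inl a) (Sum.inl b) [Sum.inl a, Sum.inl c, Sum.inl b] E F ∧
    (∀ u v, E (Sum.inl u) (Sum.inl v) ↔ T.Adj u v) ∧
    (∀ i x, ¬ E (Sum.inr i) x ∧ ¬ E x (Sum.inr i)) ∧ ∀ v, Rel E (Sum.inl v)

/-- NSP: the condition on separating triangles.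
PROOF.  Let `U, x, y, z` be as in `NoSep`, `a ∉ U` and suppose that `a` is none of `x, y, z`.  All
vertices with `E`-edges are `inl`.  Let `inl u ∈ U` (`U` is not empty, its elements have edges).  `u`
and `a` are connected in `T` without `x, y, z` (`Preconnected`: a walk, or `Reachable`); by induction
along the walk all its vertices are in `U`: a neighbour of an element of `U` is in `U` or is `x`, `y`,
`z`.  So `a ∈ U`, contradiction. -/
def NspStmt : Prop := ∀ {n : ℕ} (T : SimpleGraph (Fin n)) (a : Fin n)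
  (E : Fin n ⊕ Fin 3 → Fin n ⊕ Fin 3 → Prop), (∀ u v, E (Sum.inl u) (Sum.inl v) ↔ T.Adj u v) →
  (∀ i x, ¬ E (Sum.inr i) x ∧ ¬ E x (Sum.inr i)) → NoSepTri T → NoSep (Sum.inl a) E

/-! ## The end -/

/-- ASM: the triangulated triangle and two chains.
PROOF.  `SizStmt` with `q = k₂`: `K`, `Cut a b c E F K E₁ F₁ E₂ F₂`, `K.ncard = k₂`, so
`(Inn a b c E₁).ncard = (Inn a b c E \ K).ncard = k₁`, `(Inn a b c E₂).ncard = k₂`.  `RotStmt` twice:
`NT c a [c, b, a] E₁ F₁`; `MayStmt` for the corners `(c, a, b)`, `k₁`, `D₁`: `f₁, π₁` with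
`GdT c a b E₁ F₁ f₁` (so `GdT a b c E₁ F₁ f₁`: `o` is invariant under rotation, `Inn` is symmetric) and
`GdY c a b (Inn c a b E₁) k₁ D₁ f₁ π₁` (`Inn c a b = Inn a b c`).  `RotStmt`: `NT b c [b, a, c] E₂ F₂`;
`MayStmt` for `(b, c, a)`, `k₂`, `D₂`: `f₂, π₂`.  `GluStmt` with `R = {x | Rel E x}` (its hypotheses:
`tri`, `ins` of `f₁` for `x ∉ K`, `x ≠ a, c`: `x = b` or inner; `ins` of `f₂` for `x ∈ K`): `g`.
`CsgStmt`, `SgnStmt`.  `p₁ i = ps a b k₁ π₁ i`, `p₂ j = ps c a k₂ π₂ j`; injectivity from `GdY.pij`,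
`pin` and the disjointness of `{a}`, `{b}`, `{c}`, `K`, `Inn \ K`. -/
def AsmStmt : Prop := ∀ {V : Type} [Fintype V] {a b c : V} {E : V → V → Prop}
  {F : V → V → V → Prop}, NT a b [a, c, b] E F → NoSep a E → ∀ k₁ k₂ : ℕ, 1 ≤ k₁ → 1 ≤ k₂ →
  (Inn a b c E).ncard = k₁ + k₂ → ∀ D₁ D₂ : ℕ → ℕ,
  ∃ (g : V → ℝ × ℝ) (p₁ p₂ : ℕ → V), GdT a b c E F g ∧
    GdX k₁ k₂ D₁ D₂ (fun i => g (p₁ i)) (fun j => g (p₂ j)) ∧ p₁ (k₁ + 1) = p₂ 0 ∧
    (∀ i, i ≤ k₁ + 1 → Rel E (p₁ i)) ∧ (∀ j, j ≤ k₂ + 1 → Rel E (p₂ j)) ∧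
    (∀ i j, i ≤ k₁ + 1 → j ≤ k₁ + 1 → p₁ i = p₁ j → i = j) ∧
    (∀ i j, i ≤ k₂ + 1 → j ≤ k₂ + 1 → p₂ i = p₂ j → i = j) ∧
    ∀ i j, i ≤ k₁ → 1 ≤ j → j ≤ k₂ + 1 → p₁ i ≠ p₂ j

/-- FIN: the theorem.
PROOF.  `T` has a drawing, so `G₁` has one.  (1) `X.ncard ≤ 1` or `Y.ncard ≤ 1`
(`Y = {y | y ∉ X ∧ y ≠ c}`): there is a vertex `v` such that `G₂ - v` has a one-page book embedding
(`OnePage`, with the numbers `r`): `X = {x}`: `v = x` and `py`; `X = ∅`: `v = c` and `py`; `Y = {y}`: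
`v = y` and `px`; `Y = ∅`: `v = c` and `px`.  `ThyStmt` (proved).  (2) `X.ncard = k₁ + 1`,
`Y.ncard = k₂ + 1`, `1 ≤ k₁, k₂`; `n = k₁ + k₂ + 3` (`Fin n` is the disjoint union of `X`, `Y`, `{c}`).
`RlzStmt`: `a, b, c', E, F`; `Inn (inl a) (inl b) (inl c') E` = the `inl v` with `v ≠ a, b, c'`, so
`ncard = n - 3 = k₁ + k₂`.  `NspStmt`: `NoSep (inl a) E`.  `TrkStmt`: `e₁, e₂, D₁, D₂, S`.  `AsmStmt`:
`g, p₁, p₂`.  `P` = the image of `g ∘ inl` on `Fin n`, `card = n` (injective by `GdT.gp`: three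
vertices).  `G₁`: `g ∘ inl`, `FplStmt` (edges of `T` are edges of `E`), `GnzStmt`, `DrwStmt`.  `G₂`:
`φ : Fin n → Fin n ⊕ Fin 3`, `φ (e₁ i) = p₁ i` (`i ≤ k₁ + 1`), `φ (e₂ j) = p₂ j` (`1 ≤ j ≤ k₂ + 1`); `φ` is
injective and its values have `Rel E`, so they are `inl`, and `φ (vt e₁ e₂ p) = vt p₁ p₂ p` for the
positions `p` of `XE`.  `g ∘ φ` with `GdT.gp`, `Nx2Stmt`, `GnzStmt`, `DrwStmt`; `Xs p q r s` is symmetric
under `p ↔ q`, `r ↔ s`. -/
def FinStmt : Prop := ∀ (n : ℕ) (G₁ G₂ T : SimpleGraph (Fin n)), MaxPl T → NoSepTri T → G₁ ≤ T →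
  ∀ (c : Fin n) (X : Set (Fin n)) (r : Fin n → ℕ), TwoTrack G₂ c X r →
  ∃ P : Finset (ℝ × ℝ), P.card = n ∧ (∃ f, Draw G₁ f ∧ ∀ u, f u ∈ P) ∧
    ∃ f, Draw G₂ f ∧ ∀ u, f u ∈ P

end Pool.Agent.SGD
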