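import Pool.Agent.SGY.Stmts

/-!
# Squad SGD (MP_41797f_co): 4-connected planar graphs and two-track graphs, definitions

THEOREM DC4.  `G₁` a subgraph of a maximal planar graph `T` on `n` vertices without separating
triangle (for `n ≥ 5`: `T` is 4-connected), `G₂` a two-track graph on `n` vertices.  Then `G₁` and `G₂`
have straight-line crossing-free drawings on one set of `n` points.

Conventions as in `SGP`, `SGY`: `NT a b [a, c, b] E F` is a triangulated triangle with the corners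
`a, b, c` (counterclockwise).  In the state `Stt` below the cluster `K` sits at the corner `c`; the
contour `C₁` (from `a` to `b`) bounds the part outside `K ∪ {c}`, the contour `C₂` (from `c` to `a`)
bounds the part inside `K ∪ {a, c}`; between them is a strip of triangles from the side `b c` to the
corner `a`.
-/

noncomputable section

namespace Pool.Agent.SGD

open Pool.Agent.SGE Pool.Agent.SGP Pool.Agent.SGY

/-! ## Triangulated triangles -/

/-- There is no separating triangle without `a`: if `x y z` is a triangle and `U` is a nonempty set of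
non-isolated vertices which has no neighbours except `x, y, z`, and `a` is not in `U`, then `a` is one
of `x, y, z`. -/
def NoSep {V : Type} (a : V) (E : V → V → Prop) : Prop :=
  ∀ (U : Set V) (x y z : V), E x y → E y z → E z x → U.Nonempty → (∀ u ∈ U, Rel E u) →
    x ∉ U → y ∉ U → z ∉ U → (∀ u ∈ U, ∀ w, E u w → w ∈ U ∨ w = x ∨ w = y ∨ w = z) →
    a ∉ U → a = x ∨ a = y ∨ a = z

/-- The state of the sweep: `K` is a cluster at the corner `c`. -/
structure Stt {V : Type} [Fintype V] (a b c : V) (E : V → V → Prop) (F : V → V → V → Prop)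
    (K : Set V) (C₁ C₂ : List V) : Prop where
  nt : NT a b [a, c, b] E F
  sub : K ⊆ Inn a b c E
  n1 : NT a b C₁ (offE E (K ∪ {c})) (offF F (K ∪ {c}))
  n2 : NT c a C₂ (onE E (K ∪ {a, c})) (onF F (K ∪ {a, c}))
  r1 : ∀ x, Rel E x → x ∉ K ∪ {c} → Rel (offE E (K ∪ {c})) x
  r2 : ∀ x ∈ K, Rel (onE E (K ∪ {a, c})) x

/-! ## Placements -/

/-- Two chains of points `X 0, ..., X (k₁ + 1)` and `Y 0, ..., Y (k₂ + 1)` with a common point
`X (k₁ + 1) = Y 0`; `D₁`, `D₂` are depths as in `SGY.Ed`.  The points `X i` are sorted around every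
`Y l`, `1 ≤ l`, the points `Y j` are sorted around every `X l`, `l ≤ k₁`, and the edges `Ed` of the
first chain have the points between their ends on one side. -/
structure GdX (k₁ k₂ : ℕ) (D₁ D₂ : ℕ → ℕ) (X Y : ℕ → ℝ × ℝ) : Prop where
  top : X (k₁ + 1) = Y 0
  g1 : ∀ i j l, i < j → j ≤ k₁ + 1 → 1 ≤ l → l ≤ k₂ + 1 → 0 < o (Y l) (X j) (X i)
  g2 : ∀ i j l, i < j → j ≤ k₂ + 1 → l ≤ k₁ → 0 < o (X l) (Y j) (Y i)
  g3 : ∀ i l j, i < l → l < j → j ≤ k₁ + 1 → Ed k₁ D₁ i j → 0 < o (X j) (X i) (X l)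
  g4 : ∀ i l j, i < l → l < j → j ≤ k₂ + 1 → Ed k₂ D₂ i j → 0 < o (Y j) (Y i) (Y l)

/-- The edges of the second graph on the positions `(false, i)` (first chain) and `(true, j)` (second
chain); `S i j`: the strip edge from `i` to `j`. -/
inductive XE (k₁ k₂ : ℕ) (D₁ D₂ : ℕ → ℕ) (S : ℕ → ℕ → Prop) : Bool × ℕ → Bool × ℕ → Prop
  | xx {i j : ℕ} (h : i < j) (hj : j ≤ k₁ + 1) (hE : Ed k₁ D₁ i j) :
      XE k₁ k₂ D₁ D₂ S (false, i) (false, j)
  | yy {i j : ℕ} (h : i < j) (hj : j ≤ k₂ + 1) (hE : Ed k₂ D₂ i j) :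
      XE k₁ k₂ D₁ D₂ S (true, i) (true, j)
  | xy {i j : ℕ} (hi : i ≤ k₁) (hj : 1 ≤ j) (hj' : j ≤ k₂ + 1) (hS : S i j) :
      XE k₁ k₂ D₁ D₂ S (false, i) (true, j)

/-- the value at a position -/
def vt {α : Type} (X Y : ℕ → α) (p : Bool × ℕ) : α := if p.1 then Y p.2 else X p.2

/-! ## Graphs -/

/-- maximal planar graphs -/
def MaxPl {V : Type} (T : SimpleGraph V) : Prop :=
  (∃ f, Draw T f) ∧ ∀ T' : SimpleGraph V, T ≤ T' → (∃ f, Draw T' f) → T' = T

/-- no separating triangle -/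
def NoSepTri {V : Type} (T : SimpleGraph V) : Prop :=
  ∀ x y z, T.Adj x y → T.Adj y z → T.Adj z x →
    (T.induce {v | v ≠ x ∧ v ≠ y ∧ v ≠ z}).Preconnected

/-- Two-track graphs: `X` and `Y = {v | v ∉ X, v ≠ c}` are the tracks, `r` is the order of the
vertices, `c` is the last vertex of both tracks.  The edges inside `X ∪ {c}` do not cross above the
track, the same for `Y ∪ {c}`, and the edges between `X` and `Y` do not cross. -/
structure TwoTrack {V : Type} (G : SimpleGraph V) (c : V) (X : Set V) (r : V → ℕ) : Prop where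
  inj : Function.Injective r
  top : ∀ v, v ≠ c → r v < r c
  cX : c ∉ X
  px : ∀ x y z t, (x ∈ X ∨ x = c) → (y ∈ X ∨ y = c) → (z ∈ X ∨ z = c) → (t ∈ X ∨ t = c) →
    r x < r y → r y < r z → r z < r t → ¬ (G.Adj x z ∧ G.Adj y t)
  py : ∀ x y z t, x ∉ X → y ∉ X → z ∉ X → t ∉ X →
    r x < r y → r y < r z → r z < r t → ¬ (G.Adj x z ∧ G.Adj y t)
  xy : ∀ x x' y y', x ∈ X → x' ∈ X → y ∉ X → y' ∉ X → y ≠ c → y' ≠ c → G.Adj x y → G.Adj x' y' →
    r x < r x' → r y ≤ r y'

end Pool.Agent.SGD
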